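import Mathlib

/-!
# Numeric inequalities for small parameters

`Small P`: `P s` holds for all sufficiently small `s > 0`. `Small` statements can be combined with
`Filter.Eventually.and` or `filter_upwards`, and `Small.ex` gives the threshold.
-/

set_option autoImplicit false

open Filter Topology

namespace Pool.Agent.AND.Num

/-- `P s` for all sufficiently small `s > 0` -/
def Small (P : ℝ → Prop) : Prop := ∀ᶠ s : ℝ in 𝓝[>] (0 : ℝ), P s

theorem Small.ex {P : ℝ → Prop} (h : Small P) :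
    ∃ s₀ : ℝ, 0 < s₀ ∧ s₀ ≤ 1 ∧ ∀ s : ℝ, 0 < s → s ≤ s₀ → P s := by
  unfold Small at h
  rw [eventually_nhdsWithin_iff, Metric.eventually_nhds_iff] at h
  obtain ⟨ε, hε, h⟩ := h
  refine ⟨min (ε / 2) 1, lt_min (by positivity) one_pos, min_le_right _ _, fun s hs hs' => ?_⟩
  refine h ?_ hs
  rw [Real.dist_eq, sub_zero, abs_of_pos hs]
  have := hs'.trans (min_le_left _ _)
  linarith

theorem Small.of_ex {P : ℝ → Prop} (s₀ : ℝ) (h0 : 0 < s₀) (h : ∀ s : ℝ, 0 < s → s ≤ s₀ → P s) :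
    Small P := by
  unfold Small
  rw [eventually_nhdsWithin_iff, Metric.eventually_nhds_iff]
  refine ⟨s₀, h0, fun s hs hs' => h s hs' ?_⟩
  rw [Real.dist_eq, sub_zero, abs_of_pos hs'] at hs
  exact hs.le

theorem Small.and {P Q : ℝ → Prop} (hP : Small P) (hQ : Small Q) : Small fun s => P s ∧ Q s :=
  Filter.Eventually.and hP hQ

theorem Small.mono {P Q : ℝ → Prop} (hP : Small P) (h : ∀ s, 0 < s → P s → Q s) : Small Q := by
  unfold Small at *
  filter_upwards [hP, self_mem_nhdsWithin] with s hs hs'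
  exact h s hs' hs

theorem Small.pos : Small fun s => 0 < s := self_mem_nhdsWithin

/-- finitely many -/
theorem Small.all {ι : Type*} [Finite ι] {P : ι → ℝ → Prop} (h : ∀ i, Small (P i)) :
    Small fun s => ∀ i, P i s := Filter.eventually_all.2 h

theorem small_le (c : ℝ) (hc : 0 < c) : Small fun s => s ≤ c :=
  Small.of_ex c hc fun _ _ h => h

/-- `s ^ r → 0` -/
theorem tendsto_rpow (r : ℝ) (hr : 0 < r) : Tendsto (fun s : ℝ => s ^ r) (𝓝[>] 0) (𝓝 0) := by
  have h := (Real.continuous_rpow_const hr.le).tendsto (0 : ℝ)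
  rw [Real.zero_rpow hr.ne'] at h
  exact h.mono_left nhdsWithin_le_nhds

/-- `C s ^ p ≤ s ^ q` for `q < p` -/
theorem small_pow (C p q : ℝ) (h : q < p) : Small fun s => C * s ^ p ≤ s ^ q := by
  have h1 := (tendsto_rpow (p - q) (by linarith)).const_mul C
  rw [mul_zero] at h1
  have h2 : Small fun s => C * s ^ (p - q) < 1 := h1.eventually (gt_mem_nhds one_pos)
  refine h2.mono fun s hs h3 => ?_
  have h4 : s ^ p = s ^ (p - q) * s ^ q := by
    rw [← Real.rpow_add hs]
    congr 1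
    ring
  have h5 : 0 < s ^ q := Real.rpow_pos_of_pos hs _
  rw [h4, ← mul_assoc]
  nlinarith

/-- `C s ^ p ≤ c s ^ q` for `q < p`, `0 < c` -/
theorem small_pow' (C c p q : ℝ) (hc : 0 < c) (h : q < p) : Small fun s => C * s ^ p ≤ c * s ^ q := by
  refine (small_pow (C / c) p q h).mono fun s hs h3 => ?_
  have h4 := mul_le_mul_of_nonneg_left h3 hc.le
  have h5 : c * (C / c * s ^ p) = C * s ^ p := by
    field_simp
  rw [h5] at h4
  exact h4

/-- `s ^ p ≤ s ^ q` for `q ≤ p` and `s ≤ 1` -/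
theorem rpow_anti {s p q : ℝ} (hs : 0 < s) (hs1 : s ≤ 1) (h : q ≤ p) : s ^ p ≤ s ^ q :=
  Real.rpow_le_rpow_of_exponent_ge hs hs1 h

/-- `log (1/s) ^ k * s ^ r → 0` -/
theorem tendsto_log (r : ℝ) (hr : 0 < r) (k : ℕ) :
    Tendsto (fun s : ℝ => |Real.log s| ^ k * s ^ r) (𝓝[>] 0) (𝓝 0) := by
  rcases Nat.eq_zero_or_pos k with h0 | h0
  · subst h0
    simpa using tendsto_rpow r hr
  · have hk : (0 : ℝ) < k := by exact_mod_cast h0
    have h1 := tendsto_log_mul_rpow_nhdsGT_zero (r := r / k) (by positivity)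
    have h2 : Tendsto (fun s : ℝ => |Real.log s * s ^ (r / k)|) (𝓝[>] 0) (𝓝 0) := by
      simpa using h1.abs
    have h3 := h2.pow k
    rw [zero_pow (by omega)] at h3
    refine h3.congr' ?_
    filter_upwards [self_mem_nhdsWithin] with s hs
    have hs' : (0 : ℝ) < s := hs
    rw [abs_mul, abs_of_pos (Real.rpow_pos_of_pos hs' _), mul_pow]
    congr 1
    rw [← Real.rpow_natCast, ← Real.rpow_mul hs'.le]
    congr 1
    field_simp

/-- `C |log s| ^ k s ^ p ≤ s ^ q` for `q < p` -/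
theorem small_pow_log (C p q : ℝ) (k : ℕ) (h : q < p) :
    Small fun s => C * |Real.log s| ^ k * s ^ p ≤ s ^ q := by
  have h1 := (tendsto_log (p - q) (by linarith) k).const_mul C
  rw [mul_zero] at h1
  have h2 : Small fun s => C * (|Real.log s| ^ k * s ^ (p - q)) < 1 :=
    h1.eventually (gt_mem_nhds one_pos)
  refine h2.mono fun s hs h3 => ?_
  have h4 : s ^ p = s ^ (p - q) * s ^ q := by
    rw [← Real.rpow_add hs]
    congr 1
    ring
  have h5 : 0 < s ^ q := Real.rpow_pos_of_pos hs _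
  rw [h4]
  nlinarith

/-- `C |log s| ^ k ≤ s ^ (-q)` for `0 < q` -/
theorem small_log (C q : ℝ) (k : ℕ) (h : 0 < q) : Small fun s => C * |Real.log s| ^ k ≤ s ^ (-q) := by
  refine (small_pow_log C 0 (-q) k (by linarith)).mono fun s hs h1 => ?_
  rwa [Real.rpow_zero, mul_one] at h1

/-- `C ≤ s ^ (-q)` for `0 < q` -/
theorem small_const (C q : ℝ) (h : 0 < q) : Small fun s => C ≤ s ^ (-q) := by
  refine (small_log C q 0 h).mono fun s hs h1 => ?_
  simpa using h1

/-- `s ^ p ≤ c` for `0 < p`, `0 < c` -/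
theorem small_rpow_le (c p : ℝ) (hc : 0 < c) (h : 0 < p) : Small fun s => s ^ p ≤ c := by
  refine (small_pow' 1 c p 0 hc h).mono fun s hs h1 => ?_
  simpa using h1

/-- `C s ^ (-q) exp (-(c s ^ (-p))) ≤ exp (-s ^ (-r))` for `r < p` -/
theorem small_exp (C c p q r : ℝ) (hc : 0 < c) (hp : 0 < p) (hr : r < p) :
    Small fun s => C * s ^ (-q) * Real.exp (-(c * s ^ (-p))) ≤ Real.exp (-(s ^ (-r))) := by
  have h1 := small_const (3 * Real.log (max C 1) / c) p hp
  have h2 := small_log (3 * |q| / c) p 1 hp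
  have h3 := small_pow' 3 c (-r) (-p) hc (by linarith)
  refine (((h1.and h2).and h3).and (small_le 1 one_pos)).mono fun s hs h4 => ?_
  obtain ⟨⟨⟨h1, h2⟩, h3⟩, h5⟩ := h4
  have hm : 0 < max C 1 := lt_max_of_lt_right one_pos
  have hs0 : 0 < s ^ (-q) := Real.rpow_pos_of_pos hs _
  have h6 : C * s ^ (-q) * Real.exp (-(c * s ^ (-p))) ≤
      max C 1 * s ^ (-q) * Real.exp (-(c * s ^ (-p))) :=
    mul_le_mul_of_nonneg_right (mul_le_mul_of_nonneg_right (le_max_left _ _) hs0.le)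
      (Real.exp_pos _).le
  refine h6.trans ?_
  have h7 : max C 1 * s ^ (-q) = Real.exp (Real.log (max C 1) + Real.log s * (-q)) := by
    rw [Real.exp_add, Real.exp_log hm, Real.exp_mul, Real.exp_log hs]
  rw [h7, ← Real.exp_add, Real.exp_le_exp]
  have h8 : 3 * Real.log (max C 1) ≤ c * s ^ (-p) := by
    rw [div_le_iff₀ hc] at h1
    linarith
  have h9 : 3 * (|q| * |Real.log s|) ≤ c * s ^ (-p) := by
    rw [pow_one, div_mul_eq_mul_div, div_le_iff₀ hc] at h2
    linarith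
  have h10 : Real.log s * (-q) ≤ |q| * |Real.log s| := by
    rw [← abs_mul]
    have := le_abs_self (-(q * Real.log s))
    rw [abs_neg] at this
    linarith
  linarith

/-- `C s ^ (-q) exp (-(c s ^ (-p))) ≤ s ^ r` -/
theorem small_exp_pow (C c p q r : ℝ) (hc : 0 < c) (hp : 0 < p) :
    Small fun s => C * s ^ (-q) * Real.exp (-(c * s ^ (-p))) ≤ s ^ r := by
  have h1 := small_exp C c p (q + r) (p / 2) hc hp (by linarith)
  refine (h1.and (small_le 1 one_pos)).mono fun s hs h4 => ?_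
  obtain ⟨h1, h5⟩ := h4
  have h6 : s ^ (-(q + r)) = s ^ (-q) * s ^ (-r) := by
    rw [← Real.rpow_add hs]
    congr 1
    ring
  have h7 : Real.exp (-(s ^ (-(p / 2)))) ≤ 1 := by
    rw [Real.exp_le_one_iff]
    have : 0 < s ^ (-(p / 2)) := Real.rpow_pos_of_pos hs _
    linarith
  have h8 : C * (s ^ (-q) * s ^ (-r)) * Real.exp (-(c * s ^ (-p))) ≤ 1 := by
    rw [h6] at h1
    exact h1.trans h7
  have h9 : 0 < s ^ r := Real.rpow_pos_of_pos hs _
  have h10 : s ^ (-r) * s ^ r = 1 := by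
    rw [← Real.rpow_add hs]
    simp
  have h11 := mul_le_mul_of_nonneg_right h8 h9.le
  calc C * s ^ (-q) * Real.exp (-(c * s ^ (-p)))
      = C * (s ^ (-q) * s ^ (-r)) * Real.exp (-(c * s ^ (-p))) * s ^ r := by
        rw [show C * (s ^ (-q) * s ^ (-r)) * Real.exp (-(c * s ^ (-p))) * s ^ r =
          C * s ^ (-q) * Real.exp (-(c * s ^ (-p))) * (s ^ (-r) * s ^ r) by ring, h10, mul_one]
    _ ≤ 1 * s ^ r := h11
    _ = _ := one_mul _

/-- natural powers of the distance: `C L ^ k exp (-c s L) ≤ s ^ r` if `L ≥ s ^ (-p)`, `p > 1` -/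
theorem small_exp_dist (C c p r : ℝ) (k : ℕ) (hC : 0 ≤ C) (hc : 0 < c) (hp : 1 < p) :
    Small fun s => ∀ L : ℝ, s ^ (-p) ≤ L → C * L ^ k * Real.exp (-(c * s * L)) ≤ s ^ r := by
  -- `L ^ k exp (- c s L / 2) ≤ k! (2 / (c s)) ^ k`
  have h1 := small_exp_pow (C * (k.factorial * (2 / c) ^ k)) (c / 2) (p - 1) k r (by positivity)
    (by linarith)
  refine h1.mono fun s hs h2 L hL => ?_
  have hLp : 0 < s ^ (-p) := Real.rpow_pos_of_pos hs _
  have hL0 : 0 < L := lt_of_lt_of_le hLp hL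
  have h3 : L ^ k ≤ k.factorial * (2 / (c * s)) ^ k * Real.exp (c * s * L / 2) := by
    have h4 := Real.pow_div_factorial_le_exp (c * s * L / 2) (by positivity) k
    rw [div_le_iff₀ (by positivity)] at h4
    have h5 : L ^ k = (c * s * L / 2) ^ k * (2 / (c * s)) ^ k := by
      rw [← mul_pow]
      congr 1
      field_simp
    rw [h5]
    have h6 : (0 : ℝ) < (2 / (c * s)) ^ k := by positivity
    calc (c * s * L / 2) ^ k * (2 / (c * s)) ^ k
        ≤ (Real.exp (c * s * L / 2) * k.factorial) * (2 / (c * s)) ^ k :=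
          mul_le_mul_of_nonneg_right h4 h6.le
      _ = _ := by ring
  have h7 : Real.exp (-(c * s * L)) = Real.exp (-(c * s * L / 2)) * Real.exp (-(c * s * L / 2)) := by
    rw [← Real.exp_add]
    congr 1
    ring
  have h8 : Real.exp (c * s * L / 2) * Real.exp (-(c * s * L / 2)) = 1 := by
    rw [← Real.exp_add]
    simp
  have h9 : Real.exp (-(c * s * L / 2)) ≤ Real.exp (-(c / 2 * s ^ (-(p - 1)))) := by
    rw [Real.exp_le_exp, neg_le_neg_iff]
    have h10 : s ^ (-(p - 1)) = s * s ^ (-p) := by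
      nth_rewrite 2 [← Real.rpow_one s]
      rw [← Real.rpow_add hs]
      congr 1
      ring
    rw [h10]
    have h11 := mul_le_mul_of_nonneg_left hL (show 0 ≤ c / 2 * s by positivity)
    calc c / 2 * (s * s ^ (-p)) = c / 2 * s * s ^ (-p) := by ring
      _ ≤ c / 2 * s * L := h11
      _ = _ := by ring
  have h12 : (2 / (c * s)) ^ k = (2 / c) ^ k * s ^ (-(k : ℝ)) := by
    rw [Real.rpow_neg hs.le, Real.rpow_natCast, ← inv_pow, ← mul_pow]
    congr 1
    field_simp
  calc C * L ^ k * Real.exp (-(c * s * L))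
      ≤ C * (k.factorial * (2 / (c * s)) ^ k * Real.exp (c * s * L / 2)) *
          Real.exp (-(c * s * L)) :=
        mul_le_mul_of_nonneg_right (mul_le_mul_of_nonneg_left h3 hC) (Real.exp_pos _).le
    _ = C * (k.factorial * (2 / c) ^ k) * s ^ (-(k : ℝ)) * Real.exp (-(c * s * L / 2)) *
          (Real.exp (c * s * L / 2) * Real.exp (-(c * s * L / 2))) := by
        rw [h7, h12]
        ring
    _ = C * (k.factorial * (2 / c) ^ k) * s ^ (-(k : ℝ)) * Real.exp (-(c * s * L / 2)) := by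
        rw [h8, mul_one]
    _ ≤ C * (k.factorial * (2 / c) ^ k) * s ^ (-(k : ℝ)) * Real.exp (-(c / 2 * s ^ (-(p - 1)))) :=
        mul_le_mul_of_nonneg_left h9 (by
          have : 0 < s ^ (-(k : ℝ)) := Real.rpow_pos_of_pos hs _
          positivity)
    _ ≤ s ^ r := h2

/-- sums of powers of the clocks of the stages: `∑ (w θ ^ j) ^ p ≤ w ^ p / (1 - θ ^ p)` -/
theorem sum_clocks (w θ p : ℝ) (hw : 0 < w) (hθ : 0 < θ) (hθ1 : θ < 1) (hp : 0 < p) (n : ℕ) :
    ∑ j ∈ Finset.range n, (w * θ ^ j) ^ p ≤ w ^ p / (1 - θ ^ p) := by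
  have h1 : θ ^ p < 1 := Real.rpow_lt_one hθ.le hθ1 hp
  have h2 : 0 < θ ^ p := Real.rpow_pos_of_pos hθ _
  have h3 : ∀ j : ℕ, (w * θ ^ j) ^ p = w ^ p * (θ ^ p) ^ j := by
    intro j
    rw [Real.mul_rpow hw.le (by positivity)]
    congr 1
    rw [← Real.rpow_natCast, ← Real.rpow_natCast, ← Real.rpow_mul hθ.le, ← Real.rpow_mul hθ.le,
      mul_comm]
  rw [Finset.sum_congr rfl fun j _ => h3 j, ← Finset.mul_sum, div_eq_mul_inv]
  refine mul_le_mul_of_nonneg_left ?_ (Real.rpow_nonneg hw.le _)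
  have h4 : (0 : ℝ) < 1 - θ ^ p := by linarith
  rw [geom_sum_eq h1.ne, div_le_iff_of_neg (by linarith)]
  have h5 : (1 - θ ^ p)⁻¹ * (θ ^ p - 1) = -1 := by
    have : θ ^ p - 1 = -(1 - θ ^ p) := by ring
    rw [this, mul_neg, inv_mul_cancel₀ h4.ne']
  rw [h5]
  have : 0 ≤ (θ ^ p) ^ n := by positivity
  linarith

end Pool.Agent.AND.Num
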